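import Pool.Agent.U405.KE.C

/-!
# Equivalence of ensembles for the KLS inequality

Let `S_1, …, S_r ≥ 0` be convex functions on a Euclidean space `ℝ^N ≅ ℝ^m × ℝ^q`, `z = (x, u)`, with bounded
joint sublevel sets (`Energies`). Nothing else is assumed about the structure of the `S_j`. Consider

* the canonical ensembles (Gibbs densities) `exp (-∑_j l_j S_j(z) - ⟪a, u⟫)` on `ℝ^N`, `l_j > 0`, `a ∈ ℝ^q`;
* the microcanonical ensembles: the uniform measures on the convex bodies
  `{x ∈ ℝ^m | S_j(x, u) ≤ e_j for all j}`, for all `e ∈ ℝ^r`, `u ∈ ℝ^q` (given values of `q` linear functionals)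
  for which there is a point where all inequalities are strict;
* all ensembles `F(S_1(z), …, S_r(z), u)` on `ℝ^N`, where `F(s, u) ≥ 0` is any log-concave upper
  semicontinuous function which is nonincreasing in `s_1, …, s_r` (`Profile`), for instance products of
  Gibbs factors for some of the energies, cut-offs `S_j ≤ e_j` for others, Gaussian factors
  `exp (-S_j²)`, and any log-concave factor `φ(u)`; integrable and with a point where all
  inequalities are strict (`Nondegenerate`).

Theorem: if all the ensembles of the first kind, or all those of the second kind, satisfy the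
inequality of Kannan, Lovasz and Simonovits in the weak form `WeakPoincare A` (`A` is any function which
is fixed in advance; a Poincare inequality with constant `c₀` in isotropic position gives
`A(δ) = c₀ / (4 δ)`), then all ensembles of all three kinds satisfy it, with a function `A'` which depends
only on `A`, `r` and `q` (not on `m`, `N` or the functions `S_j`), and also the isoperimetric form of Q1 (for
sets of measure one half, and for all linear images), with a constant `c` which depends only on `A`, `r`, `q`.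
So for `r` energies and `q` linear functionals the conjecture of Kannan, Lovasz and Simonovits for one type of
ensemble is equivalent to the conjecture for all the others.

From the first kind to the second kind this is (for symmetric bodies and central sections) the
starting result `GibbsLevelSets` on page `MP_dc1397_gt`. The other implications are new as far as we
know. Kolesnikov and Milman (The KLS isoperimetric conjecture for generalized Orlicz balls, Ann. Probab.
2018) compare `exp(-S)` and `{S ≤ e}` for `r = 1`, `q = 0` and those levels `e` for which the two measures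
are close.

Method. Canonical to microcanonical: supporting functional of the logarithm of the volume, a convex
body over the Gibbs density, and the theorem on large sections (see the starting file). From
microcanonical to all: for a bounded range of the energies, `s_j ≤ R`, let
`W(x, u, s) = F(s, u)` for `S_j(x, u) ≤ s_j ≤ R`, and `W = 0` otherwise. This is a log-concave density in
`N + r` dimensions; its fibres over `(u, s)` are the uniform measures on the bodies of the second
kind. Choose a fibre with nearly maximal integral; moving it slightly towards a point where all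
inequalities are strict gives such a fibre with a strict point (the volume of the fibre is
controlled by a homothety). By the theorem on extensions (one large fibre of bounded codimension
satisfies the inequality, so the whole density does, class `MC` of `LargeSections`) `W` satisfies the
inequality. The maximal marginal of `W` in the `r` directions `s` is `F(S(z), u)` on `{S_j ≤ R}`, since `F` is
nonincreasing; projections along `r` dimensions preserve the inequality. Finally `R → ∞`.
-/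

set_option autoImplicit false

namespace Pool.Agent.Results.MP_6d896a_gt.EquivalenceOfEnsembles

open MeasureTheory Set
open scoped ENNReal InnerProductSpace

/-- Euclidean space of dimension `n` -/
abbrev Euc (n : ℕ) : Type := EuclideanSpace ℝ (Fin n)

/-- the uniform probability measure on `K` -/
noncomputable def unif {n : ℕ} (K : Set (Euc n)) : Measure (Euc n) :=
  (volume K)⁻¹ • volume.restrict K

/-- the probability measure on `ℝⁿ` with density proportional to `w` -/
noncomputable def law {n : ℕ} (w : Euc n → ℝ) : Measure (Euc n) :=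
  (∫⁻ x, ENNReal.ofReal (w x))⁻¹ • volume.withDensity fun x => ENNReal.ofReal (w x)

/-- The inequalities `Var v(P x) ≤ δ + A(δ) σ E ‖∇ v(P x)‖²` for all `δ > 0`, all linear images `P x` of
`x` (of law `μ`), all bounds `σ` for the variances of the marginals of `P x` in directions of length
one, and all `C¹` functions `v` with `|v| ≤ 1` and bounded gradient. They follow, with
`A(δ) = c₀ / (4 δ)`, from the Poincare inequality with constant `c₀` for `μ` in isotropic position. -/
def WeakPoincare (A : ℝ → ℝ) {M : ℕ} (μ : Measure (Euc M)) : Prop :=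
  ∀ δ : ℝ, 0 < δ → ∀ (k : ℕ) (P : Euc M →ₗ[ℝ] Euc k) (σ : ℝ), 0 < σ →
  (∀ θ : Euc k, ‖θ‖ = 1 → ProbabilityTheory.variance (fun x => ⟪P x, θ⟫_ℝ) μ ≤ σ) →
  ∀ (v : Euc k → ℝ) (C : ℝ), ContDiff ℝ 1 v → (∀ y, |v y| ≤ 1) → (∀ y, ‖fderiv ℝ v y‖ ≤ C) →
  ProbabilityTheory.variance (fun x => v (P x)) μ ≤ δ + A δ * σ * ∫ x, ‖fderiv ℝ v (P x)‖ ^ 2 ∂μ

/-- the boundary measure `μ⁺(S)`, the lower limit of `(μ(S_ε) - μ(S)) / ε` for the open
neighbourhoods `S_ε` of `S` -/
noncomputable def bdry {n : ℕ} (μ : Measure (Euc n)) (S : Set (Euc n)) : ℝ≥0∞ :=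
  Filter.liminf (fun ε : ℝ => (μ (Metric.thickening ε S) - μ S) / ENNReal.ofReal ε)
    (nhdsWithin 0 (Set.Ioi 0))

/-- `μ⁺(S) √σ ≥ c min(μ S, μ Sᶜ)` for all measurable sets `S` of measure one half and for every bound
`σ` of the variances of the marginals of `μ` in directions of length one -/
def KLSHalf {n : ℕ} (c : ℝ) (μ : Measure (Euc n)) : Prop :=
  ∀ σ : ℝ, 0 < σ →
    (∀ θ : Euc n, ‖θ‖ = 1 → ProbabilityTheory.variance (fun x => ⟪x, θ⟫_ℝ) μ ≤ σ) →
    ∀ S : Set (Euc n), MeasurableSet S → μ S = 1 / 2 →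
      ENNReal.ofReal (c / Real.sqrt σ) * min (μ S) (μ Sᶜ) ≤ bdry μ S

/-- all linear images of `μ` are probability measures and satisfy `KLSHalf c` -/
def ImagesKLS {m : ℕ} (c : ℝ) (μ : Measure (Euc m)) : Prop :=
  ∀ (n : ℕ) (L : Euc m →ₗ[ℝ] Euc n), IsProbabilityMeasure (Measure.map L μ) ∧
    KLSHalf c (Measure.map L μ)

/-- convex functions `S_1, …, S_r ≥ 0` with bounded joint sublevel sets -/
structure Energies {r N : ℕ} (S : Fin r → Euc N → ℝ) : Prop where
  convex : ∀ j, ConvexOn ℝ univ (S j)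
  nonneg : ∀ j z, 0 ≤ S j z
  bdd : ∀ s : Fin r → ℝ, Bornology.IsBounded {z | ∀ j, S j z ≤ s j}

/-- the Gibbs density `exp (-∑_j l_j S_j(z) - ⟪a, u⟫)`, `z = ψ(x, u)`, `x ∈ ℝ^m`, `u ∈ ℝ^q` -/
noncomputable def gibbs {r m q N : ℕ} (ψ : (Euc m × Euc q) ≃ₗ[ℝ] Euc N) (S : Fin r → Euc N → ℝ)
    (l : Fin r → ℝ) (a : Euc q) (z : Euc N) : ℝ :=
  Real.exp (-(∑ j, l j * S j z + ⟪a, (ψ.symm z).2⟫_ℝ))

/-- all Gibbs densities with `l_j > 0` are integrable and satisfy `WeakPoincare A` -/
def Canonical (A : ℝ → ℝ) {r m q N : ℕ} (ψ : (Euc m × Euc q) ≃ₗ[ℝ] Euc N)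
    (S : Fin r → Euc N → ℝ) : Prop :=
  ∀ (l : Fin r → ℝ) (a : Euc q), (∀ j, 0 < l j) → Integrable (gibbs ψ S l a) ∧
    WeakPoincare A (law (gibbs ψ S l a))

/-- the set `{x ∈ ℝ^m | S_j(ψ(x, u)) ≤ e_j for all j}` -/
def level {r m q N : ℕ} (ψ : (Euc m × Euc q) ≃ₗ[ℝ] Euc N) (S : Fin r → Euc N → ℝ)
    (e : Fin r → ℝ) (u : Euc q) : Set (Euc m) := {x | ∀ j, S j (ψ (x, u)) ≤ e j}

/-- the uniform measures on all level sets, with a point where all inequalities are strict, satisfy
`WeakPoincare A` -/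
def Microcanonical (A : ℝ → ℝ) {r m q N : ℕ} (ψ : (Euc m × Euc q) ≃ₗ[ℝ] Euc N)
    (S : Fin r → Euc N → ℝ) : Prop :=
  ∀ (e : Fin r → ℝ) (u : Euc q), (∃ x, ∀ j, S j (ψ (x, u)) < e j) →
    WeakPoincare A (unif (level ψ S e u))

/-- nonnegative log-concave upper semicontinuous functions `F(s, u)`, nonincreasing in `s_1, …, s_r` -/
structure Profile {r q : ℕ} (F : (Fin r → ℝ) → Euc q → ℝ) : Prop where
  nonneg : ∀ s u, 0 ≤ F s u
  anti : ∀ s s' u, (∀ j, s j ≤ s' j) → F s' u ≤ F s u
  conc : ∀ (s s' : Fin r → ℝ) (u u' : Euc q) (t : ℝ), 0 < t → t < 1 →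
    F s u ^ (1 - t) * F s' u' ^ t ≤ F ((1 - t) • s + t • s') ((1 - t) • u + t • u')
  usc : UpperSemicontinuous fun p : (Fin r → ℝ) × Euc q => F p.1 p.2

/-- the density `F(S_1(z), …, S_r(z), u)`, `z = ψ(x, u)` -/
def ensemble {r m q N : ℕ} (ψ : (Euc m × Euc q) ≃ₗ[ℝ] Euc N) (S : Fin r → Euc N → ℝ)
    (F : (Fin r → ℝ) → Euc q → ℝ) (z : Euc N) : ℝ := F (fun j => S j z) (ψ.symm z).2

/-- there are `z = ψ(x, u)` and `s` with `S_j(z) < s_j` for all `j` such that `F > 0` near `(s, u)` -/
def Nondegenerate {r m q N : ℕ} (ψ : (Euc m × Euc q) ≃ₗ[ℝ] Euc N) (S : Fin r → Euc N → ℝ)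
    (F : (Fin r → ℝ) → Euc q → ℝ) : Prop :=
  ∃ (z : Euc N) (s : Fin r → ℝ), (∀ j, S j z < s j) ∧
    (s, (ψ.symm z).2) ∈ interior {p : (Fin r → ℝ) × Euc q | 0 < F p.1 p.2}

/-- the conclusion: weak Poincare inequalities and the isoperimetric inequality for all linear
images -/
def Good {n : ℕ} (A : ℝ → ℝ) (c : ℝ) (μ : Measure (Euc n)) : Prop :=
  WeakPoincare A μ ∧ ImagesKLS c μ

theorem en_of {r N : ℕ} {S : Fin r → Euc N → ℝ} (h : Energies S) : Pool.Agent.U405.KE.En S :=
  ⟨h.convex, h.nonneg, h.bdd⟩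

theorem prf_of {r q : ℕ} {F : (Fin r → ℝ) → Euc q → ℝ} (h : Profile F) :
    Pool.Agent.U405.KE.Prf F :=
  ⟨h.nonneg, h.anti, h.conc, h.usc⟩

theorem gibbs_lw {r m q N : ℕ} (ψ : (Euc m × Euc q) ≃ₗ[ℝ] Euc N) {S : Fin r → Euc N → ℝ}
    (hS : Energies S) (l : Fin r → ℝ) (a : Euc q) (hl : ∀ j, 0 < l j)
    (hi : Integrable (gibbs ψ S l a)) : Pool.Agent.N483.KM.LW (gibbs ψ S l a) := by
  have hψs : Continuous ψ.symm := ψ.symm.toLinearMap.continuous_of_finiteDimensional
  have hc : Continuous (gibbs ψ S l a) := by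
    have h1 : ∀ j, Continuous (S j) := fun j => (hS.convex j).locallyLipschitz.continuous
    unfold gibbs
    fun_prop
  have hp : ∀ z, 0 < gibbs ψ S l a z := fun z => Real.exp_pos _
  refine Pool.Agent.N483.KM.lw_of (fun z => (hp z).le) (fun x y t ht ht1 => ?_)
    hc.upperSemicontinuous hi ?_
  · unfold gibbs
    rw [← Real.exp_mul, ← Real.exp_mul, ← Real.exp_add]
    refine Real.exp_le_exp.2 ?_
    have h1 : ∑ j, l j * S j ((1 - t) • x + t • y) ≤
        ∑ j, ((1 - t) * (l j * S j x) + t * (l j * S j y)) := by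
      refine Finset.sum_le_sum fun j _ => ?_
      have h2 := (hS.convex j).2 (mem_univ x) (mem_univ y) (by linarith : 0 ≤ 1 - t) ht.le
        (by ring)
      simp only [smul_eq_mul] at h2
      have h3 := mul_le_mul_of_nonneg_left h2 (hl j).le
      linarith
    rw [Finset.sum_add_distrib, ← Finset.mul_sum, ← Finset.mul_sum] at h1
    rw [map_add, map_smul, map_smul, Prod.snd_add, Prod.smul_snd, Prod.smul_snd, inner_add_right,
      inner_smul_right, inner_smul_right]
    nlinarith
  · rw [integral_pos_iff_support_of_nonneg (fun z => (hp z).le) hi]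
    have h1 : Function.support (gibbs ψ S l a) = univ := by
      ext z
      simp [(hp z).ne']
    rw [h1]
    exact NeZero.pos _

theorem can_of {A : ℝ → ℝ} {r m q N : ℕ} {ψ : (Euc m × Euc q) ≃ₗ[ℝ] Euc N}
    {S : Fin r → Euc N → ℝ} (hS : Energies S) (h : Canonical A ψ S) :
    Pool.Agent.U405.KE.Can A ψ S := by
  intro l a hl
  obtain ⟨h1, h2⟩ := h l a hl
  have h3 := gibbs_lw ψ hS l a hl h1
  exact ⟨h3.adm, (Pool.Agent.N483.KM.wpm_iff h3.adm).1 h2⟩

theorem mic_iff {A : ℝ → ℝ} {r m q N : ℕ} {ψ : (Euc m × Euc q) ≃ₗ[ℝ] Euc N}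
    {S : Fin r → Euc N → ℝ} (hS : Energies S) {e : Fin r → ℝ} {u : Euc q}
    (h : ∃ x, ∀ j, S j (ψ (x, u)) < e j) : WeakPoincare A (unif (level ψ S e u)) ↔
    ∀ δ : ℝ, 0 < δ → Pool.Agent.N483.KM.KMW (A δ) δ
      (Pool.Agent.Y506.PV.ind (Pool.Agent.U405.KE.lv ψ S e u)) := by
  have hE := en_of hS
  have hc := Pool.Agent.U405.KE.lv_compact hE (ψ := ψ) e u
  have hA := Pool.Agent.Y506.PV.adm_ind _ hc.measurableSet hc.isBounded
    (Pool.Agent.Y506.PV.vol_pos (Pool.Agent.U405.KE.lv_int hE h))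
  have h1 := Pool.Agent.N483.KM.wpm_iff (A := A) hA
  rw [Pool.Agent.Y506.PV.pm_ind _ hc.measurableSet] at h1
  exact h1

/-- the isoperimetric inequality from the functional one -/
theorem images_of {m : ℕ} {w : Euc m → ℝ} (hw : Pool.Agent.Y506.RG.Adm w) {c : ℝ} (hc : 0 < c)
    (hs : Pool.Agent.Y506.RG.Star c w) {μ : Measure (Euc m)} (hμ : Pool.Agent.Y506.RG.pm w = μ) :
    ImagesKLS (1 / (4 * c)) μ := by
  intro n L
  obtain ⟨hp, h3⟩ := Pool.Agent.N483.KM.half_law hw hc hs n L _ rfl
  rw [hμ] at hp h3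
  refine ⟨hp, fun σ hσ hvar S hS hS2 => ?_⟩
  refine le_trans ?_ (h3 σ hσ hvar S hS2)
  calc _ ≤ ENNReal.ofReal (1 / (4 * c) / Real.sqrt σ) * 1 :=
        mul_le_mul_right ((min_le_left _ _).trans prob_le_one) _
    _ = _ := mul_one _

/-- the Gibbs densities are ensembles -/
theorem gibbs_profile {r q : ℕ} (l : Fin r → ℝ) (a : Euc q) (hl : ∀ j, 0 < l j) :
    Profile fun (s : Fin r → ℝ) (u : Euc q) => Real.exp (-(∑ j, l j * s j + ⟪a, u⟫_ℝ)) := by
  refine ⟨fun s u => (Real.exp_pos _).le, fun s s' u h => ?_, fun s s' u u' t ht ht1 => ?_, ?_⟩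
  · refine Real.exp_le_exp.2 ?_
    have h1 : ∑ j, l j * s j ≤ ∑ j, l j * s' j :=
      Finset.sum_le_sum fun j _ => mul_le_mul_of_nonneg_left (h j) (hl j).le
    linarith
  · rw [← Real.exp_mul, ← Real.exp_mul, ← Real.exp_add]
    refine Real.exp_le_exp.2 (le_of_eq ?_)
    have h1 : ∑ j, l j * ((1 - t) • s + t • s') j =
        (1 - t) * ∑ j, l j * s j + t * ∑ j, l j * s' j := by
      rw [Finset.mul_sum, Finset.mul_sum, ← Finset.sum_add_distrib]
      refine Finset.sum_congr rfl fun j _ => ?_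
      simp only [Pi.add_apply, Pi.smul_apply, smul_eq_mul]
      ring
    rw [h1, inner_add_right, inner_smul_right, inner_smul_right]
    ring
  · have h : Continuous fun p : (Fin r → ℝ) × Euc q =>
        Real.exp (-(∑ j, l j * p.1 j + ⟪a, p.2⟫_ℝ)) := by fun_prop
    exact h.upperSemicontinuous

theorem ensemble_gibbs {r m q N : ℕ} (ψ : (Euc m × Euc q) ≃ₗ[ℝ] Euc N)
    (S : Fin r → Euc N → ℝ) (l : Fin r → ℝ) (a : Euc q) :
    ensemble ψ S (fun (s : Fin r → ℝ) (u : Euc q) => Real.exp (-(∑ j, l j * s j + ⟪a, u⟫_ℝ))) =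
      gibbs ψ S l a := by
  funext z
  unfold ensemble gibbs
  rfl

theorem gibbs_nondegenerate {r m q N : ℕ} (ψ : (Euc m × Euc q) ≃ₗ[ℝ] Euc N)
    (S : Fin r → Euc N → ℝ) (l : Fin r → ℝ) (a : Euc q) : Nondegenerate ψ S
      fun (s : Fin r → ℝ) (u : Euc q) => Real.exp (-(∑ j, l j * s j + ⟪a, u⟫_ℝ)) := by
  refine ⟨0, fun j => S j 0 + 1, fun j => by linarith, ?_⟩
  have h1 : {p : (Fin r → ℝ) × Euc q | 0 < Real.exp (-(∑ j, l j * p.1 j + ⟪a, p.2⟫_ℝ))} = univ :=
    eq_univ_of_forall fun p => Real.exp_pos _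
  rw [h1, interior_univ]
  exact mem_univ _

/-- **Equivalence of ensembles for the inequality of Kannan, Lovasz and Simonovits.** For all
`A : ℝ → ℝ` and all `r, q` there are a function `A'` and `c > 0` such that for all convex functions
`S_1, …, S_r ≥ 0` on `ℝ^N ≅ ℝ^m × ℝ^q`, `m ≥ 1`, with bounded joint sublevel sets: if all Gibbs densities
`exp (-∑_j l_j S_j(z) - ⟪a, u⟫)`, `l_j > 0`, are integrable and satisfy `WeakPoincare A`, or if the uniform
measures on all level sets `{x ∈ ℝ^m | S_j(x, u) ≤ e_j}` (with a point where all inequalities are strict)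
satisfy `WeakPoincare A`, then `WeakPoincare A'` and the inequality
`μ⁺(S) √‖Cov μ‖ ≥ c min(μ S, μ Sᶜ)`, `μ S = 1/2`, for all linear images, hold for all of the following
measures: the uniform measures on these level sets, the integrable Gibbs densities, and all
integrable densities `F(S_1(z), …, S_r(z), u)` with a log-concave function `F` which is nonincreasing
in the energies. -/
theorem result : ∀ (A : ℝ → ℝ) (r q : ℕ), ∃ (A' : ℝ → ℝ) (c : ℝ), 0 < c ∧
    ∀ (m N : ℕ) (ψ : (Euc m × Euc q) ≃ₗ[ℝ] Euc N) (S : Fin r → Euc N → ℝ), 1 ≤ m → Energies S →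
    (Canonical A ψ S ∨ Microcanonical A ψ S) →
    (∀ (e : Fin r → ℝ) (u : Euc q), (∃ x, ∀ j, S j (ψ (x, u)) < e j) →
      Good A' c (unif (level ψ S e u))) ∧
    (∀ (l : Fin r → ℝ) (a : Euc q), (∀ j, 0 < l j) → Integrable (gibbs ψ S l a) →
      Good A' c (law (gibbs ψ S l a))) ∧
    (∀ F : (Fin r → ℝ) → Euc q → ℝ, Profile F → Nondegenerate ψ S F →
      Integrable (ensemble ψ S F) → Good A' c (law (ensemble ψ S F))) := by
  intro A r q
  obtain ⟨A1, H1⟩ := Pool.Agent.U405.KE.mic_of_can A r q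
  -- a common function for the two cases
  have hmono : ∀ {n : ℕ} {a b δ : ℝ} {w : Euc n → ℝ}, Pool.Agent.Y506.RG.Adm w → a ≤ b →
      Pool.Agent.N483.KM.KMW a δ w → Pool.Agent.N483.KM.KMW b δ w := by
    intro n a b δ w hw hab h k P s hs hvar v C hv hv1 hvl
    refine (h k P s hs hvar v C hv hv1 hvl).trans ?_
    have h1 : 0 ≤ Pool.Agent.Y506.RG.EW w fun x => ‖fderiv ℝ v (P x)‖ ^ 2 :=
      div_nonneg (integral_nonneg fun x => mul_nonneg (by positivity) (hw.nonneg x)) hw.pos.le
    have h2 := mul_le_mul_of_nonneg_right (mul_le_mul_of_nonneg_right hab hs.le) h1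
    linarith
  obtain ⟨A2, H2⟩ := Pool.Agent.U405.KE.ens_of_mic (fun δ => max (A δ) (A1 δ)) r q
  obtain ⟨c, hc, H3⟩ := Pool.Agent.U405.KE.star_of_kmw
    fun δ => max (max (A δ) (A1 δ)) (A2 δ)
  refine ⟨fun δ => max (max (A δ) (A1 δ)) (A2 δ), 1 / (4 * c), by positivity,
    fun m N ψ S hm hS hor => ?_⟩
  have hE := en_of hS
  have hM : Pool.Agent.U405.KE.Mic (fun δ => max (A δ) (A1 δ)) ψ S := by
    intro e u h δ hδ
    have hcp := Pool.Agent.U405.KE.lv_compact hE (ψ := ψ) e u
    have hA := Pool.Agent.Y506.PV.adm_ind _ hcp.measurableSet hcp.isBounded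
      (Pool.Agent.Y506.PV.vol_pos (Pool.Agent.U405.KE.lv_int hE h))
    rcases hor with hor | hor
    · exact hmono hA (le_max_right _ _) (H1 m N ψ S hm hE (can_of hS hor) e u h δ hδ)
    · exact hmono hA (le_max_left _ _) ((mic_iff hS h).1 (hor e u h) δ hδ)
  have hgood : ∀ F : (Fin r → ℝ) → Euc q → ℝ, Profile F → Nondegenerate ψ S F →
      Integrable (ensemble ψ S F) →
      Good (fun δ => max (max (A δ) (A1 δ)) (A2 δ)) (1 / (4 * c)) (law (ensemble ψ S F)) := by
    intro F hF hN hi
    obtain ⟨k1, k2⟩ := H2 m N ψ S F hE (prf_of hF) hN hi hM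
    have k3 : ∀ δ : ℝ, 0 < δ → Pool.Agent.N483.KM.KMW (max (max (A δ) (A1 δ)) (A2 δ)) δ
        (Pool.Agent.U405.KE.ens ψ S F) := fun δ hδ => hmono k1.adm (le_max_right _ _) (k2 δ hδ)
    refine ⟨(Pool.Agent.N483.KM.wpm_iff k1.adm).2 k3, ?_⟩
    exact images_of k1.adm hc (H3 N _ k1 k3) rfl
  refine ⟨fun e u h => ?_, fun l a hl hi => ?_, hgood⟩
  · have k3 : ∀ δ : ℝ, 0 < δ → Pool.Agent.N483.KM.KMW (max (max (A δ) (A1 δ)) (A2 δ)) δ
        (Pool.Agent.Y506.PV.ind (Pool.Agent.U405.KE.lv ψ S e u)) := by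
      intro δ hδ
      have hcp := Pool.Agent.U405.KE.lv_compact hE (ψ := ψ) e u
      have hA := Pool.Agent.Y506.PV.adm_ind _ hcp.measurableSet hcp.isBounded
        (Pool.Agent.Y506.PV.vol_pos (Pool.Agent.U405.KE.lv_int hE h))
      exact hmono hA (le_max_left _ _) (hM e u h δ hδ)
    refine ⟨(mic_iff hS h).2 k3, ?_⟩
    have hcp := Pool.Agent.U405.KE.lv_compact hE (ψ := ψ) e u
    have hi := Pool.Agent.U405.KE.lv_int hE h
    have hconv : Convex ℝ (Pool.Agent.U405.KE.lv ψ S e u) := by
      intro x hx y hy a b ha hb hab j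
      have e1 : ψ (a • x + b • y, u) = a • ψ (x, u) + b • ψ (y, u) := by
        rw [← map_smul, ← map_smul, ← map_add]
        congr 1
        refine Prod.ext rfl ?_
        change u = a • u + b • u
        rw [← add_smul, hab, one_smul]
      rw [e1]
      have h6 := (hS.convex j).2 (mem_univ (ψ (x, u))) (mem_univ (ψ (y, u))) ha hb hab
      have hx' : S j (ψ (x, u)) ≤ e j := hx j
      have hy' : S j (ψ (y, u)) ≤ e j := hy j
      simp only [smul_eq_mul] at h6
      calc _ ≤ a * S j (ψ (x, u)) + b * S j (ψ (y, u)) := h6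
        _ ≤ a * e j + b * e j := by gcongr
        _ = e j := by rw [← add_mul, hab, one_mul]
    have hLW := Pool.Agent.N483.KM.lboR m _ hcp hconv hi
    exact images_of hLW.adm hc (H3 m _ hLW k3)
      (Pool.Agent.Y506.PV.pm_ind _ hcp.measurableSet)
  · have h1 := hgood _ (gibbs_profile l a hl) (gibbs_nondegenerate ψ S l a)
    rw [ensemble_gibbs] at h1
    exact h1 hi

end Pool.Agent.Results.MP_6d896a_gt.EquivalenceOfEnsembles
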