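import Pool.Agent.U959.OC.Lcv

/-!
# KLS for independent log-concave variables conditioned on a partial order

Q1 with absolute constants, for all sets, for the following log-concave measures, all `n`: the law of
independent random variables `X_1, …, X_n` with an arbitrary common log-concave density `ρ` on the
line, conditioned on `X_i ≤ X_j` for all `i ≤_P j`, for an arbitrary partial order `P` on `n` points.
(For a total order these are order statistics; for the uniform density on `[0, 1]` this is the
uniform measure on the order polytope of `P`, which is `OrderPolytopes` in `MP_8d00da_gt`.)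
The constants are `48` for Poincare's inequality and `1/56` for Cheeger's inequality, relative to
`‖A‖_op`, and more precisely relative to the variance `Var ρ ≤ ‖A‖_op` of one variable. So the
conditioning on an order, with any number of inequalities, never increases the Poincare constant
beyond `48 Var ρ`, a bound of the order of the Poincare constant of one variable.

Method. Write `ρ` as the image of the logistic law under an increasing map `T`. By log-concavity
`F (1 - F) ≤ ρ / (2 ρ(m))`, `m` the median, so `T` is `1/(2 ρ(m))`-Lipschitz, and it is sufficient to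
prove Poincare's inequality with weights, `Var f ≤ 4 E ∑ (x_i (1 - x_i))² (∂_i f)²`, for the uniform
measure on the order polytope. This is a limit of the inequality of `R928`/`R560` (starting files) for
lattice placements with variable rates: for the increasing function `W_k = √(k (N-k)) -
√((k+1) (N-k-1))` of the position the sum of the `W`'s of all labels is an exact eigenfunction of the
exchange process with the rates `c_k = S_{k+1} / (2 S_{k+1} - S_k - S_{k+2})`, `S_k = √(k (N-k))`,
whatever the partial order is, and `c_{k-1} ≤ 4 k² (N-k)² / N²`. The variance of the sum of the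
coordinates is not changed by the conditioning (symmetric functions have the same law on all
Weyl chambers), which gives `Var ρ ≤ ‖A‖_op`, and `48 ρ(m)² Var ρ ≥ 1` because `ρ ≤ 2 ρ(m)`. From
Poincare's to Cheeger's inequality by the discrete heat flow of the starting files (`W695.KH`,
`R656.OP2`), for total variation limits of smooth log-concave measures.
-/

set_option autoImplicit false

namespace Pool.Agent.Results.MP_6d896a_gt.OrderConditioned

open MeasureTheory Set
open scoped ENNReal InnerProductSpace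

/-- Euclidean space of dimension `n` -/
abbrev Euc (n : ℕ) : Type := EuclideanSpace ℝ (Fin n)

/-- `ρ` is a log-concave probability density on the line. -/
structure LogConcaveDensity (ρ : ℝ → ℝ) : Prop where
  nonneg : ∀ t, 0 ≤ ρ t
  meas : Measurable ρ
  logc : ∀ x y t : ℝ, 0 < t → t < 1 → ρ x ^ (1 - t) * ρ y ^ t ≤ ρ ((1 - t) * x + t * y)
  mass : ∫⁻ t, ENNReal.ofReal (ρ t) = 1

/-- the variance of a random variable with density `ρ` -/
noncomputable def variance₁ (ρ : ℝ → ℝ) : ℝ :=
  ProbabilityTheory.variance (fun t : ℝ => t) (volume.withDensity fun t => ENNReal.ofReal (ρ t))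

/-- the law of `n` independent random variables with density `ρ` -/
noncomputable def iid (n : ℕ) (ρ : ℝ → ℝ) : Measure (Euc n) :=
  volume.withDensity fun x => ∏ i, ENNReal.ofReal (ρ (x i))

/-- the cone `{x | x_i ≤ x_j if R i j}` -/
def orderCone {n : ℕ} (R : Fin n → Fin n → Prop) : Set (Euc n) := {x | ∀ i j, R i j → x i ≤ x j}

/-- the law of `n` independent random variables with density `ρ` conditioned on `X_i ≤ X_j` if
`R i j` -/
noncomputable def conditioned {n : ℕ} (ρ : ℝ → ℝ) (R : Fin n → Fin n → Prop) : Measure (Euc n) :=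
  ProbabilityTheory.cond (iid n ρ) (orderCone R)

/-- `μ` has a log-concave density. -/
def LogConcave {n : ℕ} (μ : Measure (Euc n)) : Prop :=
  ∃ w : Euc n → ℝ, Measurable w ∧ (∀ x, 0 ≤ w x) ∧
    (∀ x y, ∀ t : ℝ, 0 < t → t < 1 → w x ^ (1 - t) * w y ^ t ≤ w ((1 - t) • x + t • y)) ∧
    μ = volume.withDensity fun x => ENNReal.ofReal (w x)

/-- `Var ⟪θ, X⟫ ≤ s ‖θ‖²` for all `θ`: the covariance matrix of `μ` has norm at most `s`. -/
def CovLe {n : ℕ} (μ : Measure (Euc n)) (s : ℝ) : Prop :=
  ∀ θ : Euc n, ProbabilityTheory.evariance (fun x => ⟪θ, x⟫_ℝ) μ ≤ ENNReal.ofReal (s * ‖θ‖ ^ 2)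

/-- Poincare's inequality with constant `C`, for all `C¹` functions in `L²(μ)` -/
def Poincare {n : ℕ} (μ : Measure (Euc n)) (C : ℝ) : Prop :=
  ∀ f : Euc n → ℝ, ContDiff ℝ 1 f → MemLp f 2 μ →
    ENNReal.ofReal (ProbabilityTheory.variance f μ) ≤
      ENNReal.ofReal C * ∫⁻ x, ENNReal.ofReal (‖fderiv ℝ f x‖ ^ 2) ∂μ

/-- Minkowski (exterior) boundary measure `μ⁺(A)` -/
noncomputable def bdry {n : ℕ} (μ : Measure (Euc n)) (A : Set (Euc n)) : ℝ≥0∞ :=
  Filter.liminf (fun ε : ℝ => (μ (Metric.thickening ε A) - μ A) / ENNReal.ofReal ε)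
    (nhdsWithin 0 (Set.Ioi 0))

/-- `c min(μ A, 1 - μ A) ≤ μ⁺(A)` for all measurable `A`, that is `c ≤ ψ_μ` -/
def Cheeger {n : ℕ} (μ : Measure (Euc n)) (c : ℝ) : Prop :=
  ∀ A : Set (Euc n), MeasurableSet A → ENNReal.ofReal c * min (μ A) (1 - μ A) ≤ bdry μ A

/-- **KLS for independent log-concave variables conditioned on a partial order.** Let `ρ` be a
log-concave probability density on the line, `n ≥ 1`, `R` a partial order on `n` points (reflexive or
strict: only antisymmetry and transitivity are assumed), and let `μ` be the law of `n` independent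
random variables with density `ρ` conditioned on `X_i ≤ X_j` if `R i j`. Then `μ` is a log-concave
probability measure, Poincare's inequality holds with constant `48 Var ρ` and Cheeger's inequality
with constant `1 / (56 √(Var ρ))`. If the covariance matrix of `μ` has norm at most `s` then
`Var ρ ≤ s`, so that these inequalities hold with `48 s` and `1 / (56 √s)`. -/
theorem result : ∀ (n : ℕ) (ρ : ℝ → ℝ) (R : Fin n → Fin n → Prop), 1 ≤ n → LogConcaveDensity ρ →
    (∀ a b, R a b → R b a → a = b) → (∀ a b c, R a b → R b c → R a c) →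
    IsProbabilityMeasure (conditioned ρ R) ∧ LogConcave (conditioned ρ R) ∧
    Poincare (conditioned ρ R) (48 * variance₁ ρ) ∧
    Cheeger (conditioned ρ R) (1 / (56 * Real.sqrt (variance₁ ρ))) ∧
    ∀ s : ℝ, 0 < s → CovLe (conditioned ρ R) s → variance₁ ρ ≤ s ∧
      Poincare (conditioned ρ R) (48 * s) ∧ Cheeger (conditioned ρ R) (1 / (56 * Real.sqrt s)) := by
  intro n ρ R hn hρ' hanti htr
  have hρ : Pool.Agent.U959.OC.LCD ρ := ⟨hρ'.nonneg, hρ'.meas, hρ'.logc, hρ'.mass⟩
  obtain ⟨hprob, hne, hvar, m, hm, hmv, hPoi, hmink⟩ :=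
    Pool.Agent.U959.OC.facts hρ R hanti htr
  have hnu : Pool.Agent.U959.OC.nu ρ R = conditioned ρ R := rfl
  rw [hnu] at hprob hvar hPoi hmink
  have hv1 : ProbabilityTheory.variance (fun t : ℝ => t) (Pool.Agent.U959.OC.law ρ) = variance₁ ρ := rfl
  rw [hv1] at hvar hmv
  obtain ⟨V, hV⟩ : ∃ V, V = variance₁ ρ := ⟨_, rfl⟩
  rw [← hV] at hvar hmv ⊢
  have hV0 : 0 < V := by
    have : 0 < 1 / ρ m ^ 2 := by positivity
    linarith
  -- Poincare for larger constants
  have hP : ∀ s, V ≤ s → Poincare (conditioned ρ R) (48 * s) := by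
    intro s hs f hf hf2
    have hs0 : 0 < s := lt_of_lt_of_le hV0 hs
    refine Pool.Agent.U959.OC.gen (conditioned ρ R) (by positivity) (fun v B L hv hB hL => ?_) f hf hf2
    refine (hPoi v B L hv hB hL).trans ?_
    refine mul_le_mul_of_nonneg_right ?_ (integral_nonneg fun x => sq_nonneg _)
    linarith
  have hC : ∀ s, V ≤ s → Cheeger (conditioned ρ R) (1 / (56 * Real.sqrt s)) := by
    intro s hs A hA
    have hs0 : 0 < s := lt_of_lt_of_le hV0 hs
    obtain ⟨b, hb⟩ : ∃ b, b = bdry (conditioned ρ R) A := ⟨_, rfl⟩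
    have h1 : conditioned ρ R A * (1 - conditioned ρ R A) ≤ ENNReal.ofReal (4 / ρ m) * b := by
      rw [hb]
      exact hmink A
    rw [← hb]
    have hsq : 0 < Real.sqrt s := Real.sqrt_pos.2 hs0
    have h4 : 4 / ρ m ≤ 28 * Real.sqrt s := by
      have h5 : (1 / ρ m) ^ 2 ≤ (7 * Real.sqrt s) ^ 2 := by
        rw [mul_pow, Real.sq_sqrt hs0.le, div_pow, one_pow]
        linarith
      have h6 : 1 / ρ m ≤ 7 * Real.sqrt s := (abs_le_of_sq_le_sq' h5 (by positivity)).2
      have : 4 / ρ m = 4 * (1 / ρ m) := by ring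
      linarith
    -- `min (a) (1 - a) ≤ 2 a (1 - a)`
    obtain ⟨a, ha⟩ : ∃ a, a = conditioned ρ R A := ⟨_, rfl⟩
    have ha1 : a ≤ 1 := by rw [ha]; exact prob_le_one
    have hmin : min a (1 - a) ≤ 2 * (a * (1 - a)) := by
      have hat : a ≠ ⊤ := ne_top_of_le_ne_top ENNReal.one_ne_top ha1
      obtain ⟨r, hr0, hr⟩ : ∃ r : ℝ, 0 ≤ r ∧ a = ENNReal.ofReal r :=
        ⟨a.toReal, ENNReal.toReal_nonneg, (ENNReal.ofReal_toReal hat).symm⟩
      have hr1 : r ≤ 1 := by
        rw [hr, ← ENNReal.ofReal_one] at ha1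
        exact (ENNReal.ofReal_le_ofReal_iff zero_le_one).1 ha1
      have e1 : 1 - a = ENNReal.ofReal (1 - r) := by
        rw [hr, ← ENNReal.ofReal_one, ENNReal.ofReal_sub _ hr0]
      have e2 : (2 : ℝ≥0∞) = ENNReal.ofReal 2 := by simp
      rw [e1, hr, ← ENNReal.ofReal_mul hr0, e2, ← ENNReal.ofReal_mul (by norm_num)]
      rcases le_total r (1 / 2) with h | h
      · refine (min_le_left _ _).trans (ENNReal.ofReal_le_ofReal ?_)
        nlinarith
      · refine (min_le_right _ _).trans (ENNReal.ofReal_le_ofReal ?_)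
        nlinarith
    rw [← ha] at h1 ⊢
    have h7 : min a (1 - a) ≤ ENNReal.ofReal (56 * Real.sqrt s) * b := by
      calc min a (1 - a) ≤ 2 * (a * (1 - a)) := hmin
        _ ≤ 2 * (ENNReal.ofReal (4 / ρ m) * b) :=
            mul_le_mul_right h1 _
        _ ≤ 2 * (ENNReal.ofReal (28 * Real.sqrt s) * b) :=
            mul_le_mul_right (mul_le_mul_left (ENNReal.ofReal_le_ofReal h4) _) _
        _ = ENNReal.ofReal (56 * Real.sqrt s) * b := by
            rw [← mul_assoc]
            congr 1
            have e2 : (2 : ℝ≥0∞) = ENNReal.ofReal 2 := by simp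
            rw [e2, ← ENNReal.ofReal_mul (by norm_num)]
            congr 1
            ring
    have h8 : (0 : ℝ) < 56 * Real.sqrt s := by positivity
    calc ENNReal.ofReal (1 / (56 * Real.sqrt s)) * min a (1 - a)
        ≤ ENNReal.ofReal (1 / (56 * Real.sqrt s)) *
          (ENNReal.ofReal (56 * Real.sqrt s) * b) := mul_le_mul_right h7 _
      _ = b := by
          rw [← mul_assoc, ← ENNReal.ofReal_mul (by positivity), one_div,
            inv_mul_cancel₀ h8.ne', ENNReal.ofReal_one, one_mul]
  refine ⟨hprob, ?_, hP V le_rfl, hC V le_rfl, fun s hs hcov => ?_⟩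
  · refine ⟨fun x => (iid n ρ (orderCone R)).toReal⁻¹ * Pool.Agent.U959.OC.wR ρ R x, ?_, ?_, ?_, ?_⟩
    · exact measurable_const.mul (Pool.Agent.U959.OC.wR_meas hρ.meas R)
    · intro x
      exact mul_nonneg (inv_nonneg.2 ENNReal.toReal_nonneg)
        (Pool.Agent.U959.OC.wR_nonneg hρ.nonneg R x)
    · intro x y t h0 h1
      obtain ⟨z, hz⟩ : ∃ z, z = (iid n ρ (orderCone R)).toReal⁻¹ := ⟨_, rfl⟩
      have hz0 : 0 ≤ z := by rw [hz]; exact inv_nonneg.2 ENNReal.toReal_nonneg
      rw [← hz, Real.mul_rpow hz0 (Pool.Agent.U959.OC.wR_nonneg hρ.nonneg R x),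
        Real.mul_rpow hz0 (Pool.Agent.U959.OC.wR_nonneg hρ.nonneg R y)]
      have e : z ^ (1 - t) * z ^ t = z := by
        rw [← Real.rpow_add_of_nonneg hz0 (by linarith) h0.le]
        simp
      calc z ^ (1 - t) * Pool.Agent.U959.OC.wR ρ R x ^ (1 - t) *
            (z ^ t * Pool.Agent.U959.OC.wR ρ R y ^ t) =
            (z ^ (1 - t) * z ^ t) * (Pool.Agent.U959.OC.wR ρ R x ^ (1 - t) *
              Pool.Agent.U959.OC.wR ρ R y ^ t) := by ring
        _ ≤ z * Pool.Agent.U959.OC.wR ρ R ((1 - t) • x + t • y) := by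
            rw [e]
            exact mul_le_mul_of_nonneg_left (Pool.Agent.U959.OC.wR_logc hρ R x y t h0 h1) hz0
    · exact Pool.Agent.U959.OC.nu_dens hρ R hne
  · have hVs : V ≤ s := by
      have h1 := hcov (WithLp.toLp 2 fun _ => (1 : ℝ))
      have e1 : (fun x : Euc n => ⟪(WithLp.toLp 2 fun _ => (1 : ℝ) : Euc n), x⟫_ℝ) =
          fun x => ∑ i, x i := by
        funext x
        rw [EuclideanSpace.inner_eq_star_dotProduct]
        simp [dotProduct]
      have e2 : ‖(WithLp.toLp 2 fun _ => (1 : ℝ) : Euc n)‖ ^ 2 = n := by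
        rw [EuclideanSpace.real_norm_sq_eq]
        simp
      rw [e1, e2] at h1
      have h2 := (hvar : _).trans h1
      rw [ENNReal.ofReal_le_ofReal_iff (by positivity)] at h2
      have hn0 : (0 : ℝ) < n := by exact_mod_cast hn
      nlinarith
    exact ⟨hVs, hP s hVs, hC s hVs⟩

end Pool.Agent.Results.MP_6d896a_gt.OrderConditioned
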