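import Pool.Agent.U405.KE.Q

/-!
# KLS for densities given by few functions with pinched Hessians

Q1, for sets of measure one half, for the laws of all linear images (marginals, in any dimension) of the
probability measures on `ℝⁿ` with density proportional to

`F(S_1(z), …, S_r(z), U z)`

* `S_1, …, S_r ≥ 0` are functions on `ℝⁿ` with pinched Hessians: there are positive semidefinite
  quadratic forms `Q_j(z) = ‖B_j z‖²` (with only `0` as common zero) such that `S_j - Q_j / 2` and
  `Λ Q_j / 2 - S_j` are convex (`Pinched`);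
* `U` consists of `k < n` independent linear functionals;
* `F(s, u) ≥ 0` is any log-concave upper semicontinuous function which is nonincreasing in
  `s_1, …, s_r` (`Profile`): indicator functions of convex sets (uniform measures on convex bodies),
  `exp (-Φ(s, u))` with a convex function `Φ` which is nondecreasing in the `s_j`, products of such functions;

the density has to be integrable, with a point where all inequalities are strict (`Nondegenerate`). There
is no other condition: no symmetry, no product structure, no condition on the position of the forms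
`Q_j` with respect to each other. The constants depend only on `Λ`, `r`, `k`.

Examples.

* `S_j(y) = ‖B_j y - b_j‖² / 2`, `Λ = 1` (theorem `pinched_quadratic`): uniform measures on intersections of `r`
  ellipsoids or elliptic cylinders with arbitrary axes and centres, cut by `k` linear inequalities;
  densities `exp (-∑_j ‖B_j y - b_j‖^{p_j} - φ(U y))`, `p_j ≥ 2`, `φ` convex, and their restrictions to such bodies.
* Ensembles of systems with interactions: `S(y) = ∑_e V_e(y_{e'} - y_{e''}) + ∑_i W_i(y_i)` on any finite graph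
  (gradient interface models), with `a ≤ V'' ≤ Λ a` (the weights `a_e`, `a_i ≥ 0` may depend on the edge or
  vertex): microcanonical `{S ≤ e}` and mixed ensembles, several such energies with different weights
  on the same or on different graphs, and `k` linear conditions. In the starting files the energies are
  sums of functions of blocks (`FewInequalities`: systems without interactions); in our hand-in
  `EquivalenceOfEnsembles` the inequality for one type of ensemble is an assumption. Here nothing is
  assumed.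
* Restrictions of such functions to subspaces of any dimension have the same property, so all
  sections of these densities by affine subspaces (with a strict point) are included.

Only the canonical ensembles themselves, `F(s, u) = exp (-∑ l_j s_j - ⟪a, u⟫)`, are classical (Brascamp-Lieb and
Cramer-Rao inequalities). For `r = 1`, `k = 0` the body `{S ≤ e}` is 2-uniformly convex, and for such bodies related
results are known (Milman and Sodin, J. Funct. Anal. 2008; Klartag and E. Milman, Israel J. Math. 2008). An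
intersection of two such bodies with different forms is not uniformly convex for its norm, with a
bound which depends on `Λ` only, and its volume may be exponentially smaller than those of the two.

Method. (1) The Gibbs densities `exp (-V)`, `V = ∑ l_j S_j + ℓ`, `ℓ` linear, satisfy, with `Q = ∑ l_j Q_j`, the Poincare
inequality `Var f ≤ E Q*(∇ f)` (Brascamp-Lieb), `Q*` the dual form; and, by the Cramer-Rao inequality,
`Q*(θ) ≤ Λ Var ⟪θ, z⟫` for all `θ` (proved by comparison of the density with its translates, so no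
differentiability is used). So the Poincare constant of every linear image is at most `Λ ‖Cov‖`. (2) From
these canonical ensembles to the microcanonical ones and to all densities `F(S, U)`:
`EquivalenceOfEnsembles` (supporting functional of the logarithm of the volume, a convex body over
the Gibbs density, theorem on large sections; lift to `n + r` dimensions, extension from one large
fibre, projection).
-/

set_option autoImplicit false

namespace Pool.Agent.Results.MP_6d896a_gt.PinchedEnergies

open MeasureTheory Set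
open scoped ENNReal InnerProductSpace

/-- Euclidean space of dimension `n` -/
abbrev Euc (n : ℕ) : Type := EuclideanSpace ℝ (Fin n)

/-- the probability measure on `ℝⁿ` with density proportional to `w` -/
noncomputable def law {n : ℕ} (w : Euc n → ℝ) : Measure (Euc n) :=
  (∫⁻ x, ENNReal.ofReal (w x))⁻¹ • volume.withDensity fun x => ENNReal.ofReal (w x)

/-- The inequalities `Var v(P x) ≤ δ + A(δ) σ E ‖∇ v(P x)‖²` for all `δ > 0`, all linear images `P x` of
`x` (of law `μ`), all bounds `σ` for the variances of the marginals of `P x` in directions of length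
one, and all `C¹` functions `v` with `|v| ≤ 1` and bounded gradient. They follow, with
`A(δ) = c₀ / (4 δ)`, from the Poincare inequality with constant `c₀` for `μ` in isotropic position. -/
def WeakPoincare (A : ℝ → ℝ) {M : ℕ} (μ : Measure (Euc M)) : Prop :=
  ∀ δ : ℝ, 0 < δ → ∀ (k : ℕ) (P : Euc M →ₗ[ℝ] Euc k) (σ : ℝ), 0 < σ →
  (∀ θ : Euc k, ‖θ‖ = 1 → ProbabilityTheory.variance (fun x => ⟪P x, θ⟫_ℝ) μ ≤ σ) →
  ∀ (v : Euc k → ℝ) (C : ℝ), ContDiff ℝ 1 v → (∀ y, |v y| ≤ 1) → (∀ y, ‖fderiv ℝ v y‖ ≤ C) →
  ProbabilityTheory.variance (fun x => v (P x)) μ ≤ δ + A δ * σ * ∫ x, ‖fderiv ℝ v (P x)‖ ^ 2 ∂μ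

/-- the boundary measure `μ⁺(S)`, the lower limit of `(μ(S_ε) - μ(S)) / ε` for the open
neighbourhoods `S_ε` of `S` -/
noncomputable def bdry {n : ℕ} (μ : Measure (Euc n)) (S : Set (Euc n)) : ℝ≥0∞ :=
  Filter.liminf (fun ε : ℝ => (μ (Metric.thickening ε S) - μ S) / ENNReal.ofReal ε)
    (nhdsWithin 0 (Set.Ioi 0))

/-- `μ⁺(S) √σ ≥ c min(μ S, μ Sᶜ)` for all measurable sets `S` of measure one half and for every bound
`σ` of the variances of the marginals of `μ` in directions of length one -/
def KLSHalf {n : ℕ} (c : ℝ) (μ : Measure (Euc n)) : Prop :=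
  ∀ σ : ℝ, 0 < σ →
    (∀ θ : Euc n, ‖θ‖ = 1 → ProbabilityTheory.variance (fun x => ⟪x, θ⟫_ℝ) μ ≤ σ) →
    ∀ S : Set (Euc n), MeasurableSet S → μ S = 1 / 2 →
      ENNReal.ofReal (c / Real.sqrt σ) * min (μ S) (μ Sᶜ) ≤ bdry μ S

/-- all linear images of `μ` are probability measures and satisfy `KLSHalf c` -/
def ImagesKLS {m : ℕ} (c : ℝ) (μ : Measure (Euc m)) : Prop :=
  ∀ (n : ℕ) (L : Euc m →ₗ[ℝ] Euc n), IsProbabilityMeasure (Measure.map L μ) ∧
    KLSHalf c (Measure.map L μ)

/-- Functions `S_1, …, S_r ≥ 0` on `ℝⁿ` with pinched Hessians: `S_j` minus the quadratic form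
`‖B_j z‖² / 2` is convex, and `Λ ‖B_j z‖² / 2` minus `S_j` is convex (for `C²` functions:
`B_jᵀ B_j ≤ D² S_j ≤ Λ B_jᵀ B_j` everywhere). The positive semidefinite forms `‖B_j z‖²` may be degenerate,
but `0` is their only common zero. -/
structure Pinched (Λ : ℝ) {r n : ℕ} (S : Fin r → Euc n → ℝ) (B : Fin r → Euc n →ₗ[ℝ] Euc n) :
    Prop where
  nonneg : ∀ j z, 0 ≤ S j z
  lower : ∀ j, ConvexOn ℝ univ fun z => S j z - ‖B j z‖ ^ 2 / 2
  upper : ∀ j, ConvexOn ℝ univ fun z => Λ / 2 * ‖B j z‖ ^ 2 - S j z
  inj : ∀ z, (∀ j, B j z = 0) → z = 0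

/-- nonnegative log-concave upper semicontinuous functions `F(s, u)`, nonincreasing in `s_1, …, s_r` -/
structure Profile {r k : ℕ} (F : (Fin r → ℝ) → Euc k → ℝ) : Prop where
  nonneg : ∀ s u, 0 ≤ F s u
  anti : ∀ s s' u, (∀ j, s j ≤ s' j) → F s' u ≤ F s u
  conc : ∀ (s s' : Fin r → ℝ) (u u' : Euc k) (t : ℝ), 0 < t → t < 1 →
    F s u ^ (1 - t) * F s' u' ^ t ≤ F ((1 - t) • s + t • s') ((1 - t) • u + t • u')
  usc : UpperSemicontinuous fun p : (Fin r → ℝ) × Euc k => F p.1 p.2

/-- the density `F(S_1(z), …, S_r(z), U z)` -/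
def ensemble {r k n : ℕ} (S : Fin r → Euc n → ℝ) (U : Euc n →ₗ[ℝ] Euc k)
    (F : (Fin r → ℝ) → Euc k → ℝ) (z : Euc n) : ℝ := F (fun j => S j z) (U z)

/-- there are `z` and `s` with `S_j(z) < s_j` for all `j` such that `F > 0` near `(s, U z)` -/
def Nondegenerate {r k n : ℕ} (S : Fin r → Euc n → ℝ) (U : Euc n →ₗ[ℝ] Euc k)
    (F : (Fin r → ℝ) → Euc k → ℝ) : Prop :=
  ∃ (z : Euc n) (s : Fin r → ℝ), (∀ j, S j z < s j) ∧
    (s, U z) ∈ interior {p : (Fin r → ℝ) × Euc k | 0 < F p.1 p.2}

/-- the conclusion: weak Poincare inequalities and the isoperimetric inequality for all linear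
images -/
def Good {n : ℕ} (A : ℝ → ℝ) (c : ℝ) (μ : Measure (Euc n)) : Prop :=
  WeakPoincare A μ ∧ ImagesKLS c μ

theorem pin_of {Λ : ℝ} {r n : ℕ} {S : Fin r → Euc n → ℝ} {B : Fin r → Euc n →ₗ[ℝ] Euc n}
    (h : Pinched Λ S B) : Pool.Agent.U405.KE.Pin Λ S B :=
  ⟨h.nonneg, h.lower, h.upper, h.inj⟩

/-- quadratic functions are pinched, `Λ = 1` -/
theorem pinched_quadratic {r n : ℕ} (B : Fin r → Euc n →ₗ[ℝ] Euc n) (b : Fin r → Euc n)
    (hB : ∀ z, (∀ j, B j z = 0) → z = 0) : Pinched 1 (fun j z => ‖B j z - b j‖ ^ 2 / 2) B := by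
  have e1 : ∀ j z, ‖B j z - b j‖ ^ 2 = ‖B j z‖ ^ 2 - 2 * ⟪B j z, b j⟫_ℝ + ‖b j‖ ^ 2 := fun j z =>
    norm_sub_sq_real _ _
  have e2 : ∀ (j : Fin r) (x y : Euc n) (s t : ℝ),
      ⟪B j (s • x + t • y), b j⟫_ℝ = s * ⟪B j x, b j⟫_ℝ + t * ⟪B j y, b j⟫_ℝ := fun j x y s t => by
    rw [map_add, map_smul, map_smul, inner_add_left, real_inner_smul_left, real_inner_smul_left]
  refine ⟨fun j z => by positivity, fun j => ⟨convex_univ, fun x _ y _ s t hs ht hst => ?_⟩,
    fun j => ⟨convex_univ, fun x _ y _ s t hs ht hst => ?_⟩, hB⟩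
  · simp only [e1, e2, smul_eq_mul]
    refine le_of_eq ?_
    have h1 : t = 1 - s := by linarith
    rw [h1]
    ring
  · simp only [e1, e2, smul_eq_mul]
    refine le_of_eq ?_
    have h1 : t = 1 - s := by linarith
    rw [h1]
    ring

/-- the isoperimetric inequality from the functional one -/
theorem images_of {m : ℕ} {w : Euc m → ℝ} (hw : Pool.Agent.Y506.RG.Adm w) {c : ℝ} (hc : 0 < c)
    (hs : Pool.Agent.Y506.RG.Star c w) {μ : Measure (Euc m)} (hμ : Pool.Agent.Y506.RG.pm w = μ) :
    ImagesKLS (1 / (4 * c)) μ := by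
  intro n L
  obtain ⟨hp, h3⟩ := Pool.Agent.N483.KM.half_law hw hc hs n L _ rfl
  rw [hμ] at hp h3
  refine ⟨hp, fun σ hσ hvar S hS hS2 => ?_⟩
  refine le_trans ?_ (h3 σ hσ hvar S hS2)
  calc _ ≤ ENNReal.ofReal (1 / (4 * c) / Real.sqrt σ) * 1 :=
        mul_le_mul_right ((min_le_left _ _).trans prob_le_one) _
    _ = _ := mul_one _

/-- **KLS for densities given by few functions with pinched Hessians.** For all `Λ ≥ 1` and `r, k` there are
a function `A'` and `c > 0` such that for all functions `S_1, …, S_r ≥ 0` on `ℝⁿ` with pinched Hessians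
(`Pinched Λ S B`), all `k < n` independent linear functionals `U` and all log-concave upper semicontinuous
`F(s, u) ≥ 0`, nonincreasing in the `s_j`, such that `F(S_1(z), …, S_r(z), U z)` is integrable and
nondegenerate: the probability measure `μ` with this density satisfies `WeakPoincare A'`, and all its
linear images `ν` satisfy `ν⁺(S) √‖Cov ν‖ ≥ c min(ν S, ν Sᶜ)` for `ν S = 1/2`. -/
theorem result : ∀ (Λ : ℝ) (r k : ℕ), 1 ≤ Λ → ∃ (A' : ℝ → ℝ) (c : ℝ), 0 < c ∧
    ∀ (n : ℕ) (S : Fin r → Euc n → ℝ) (B : Fin r → Euc n →ₗ[ℝ] Euc n) (U : Euc n →ₗ[ℝ] Euc k)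
    (F : (Fin r → ℝ) → Euc k → ℝ), k < n → Function.Surjective U → Pinched Λ S B → Profile F →
    Nondegenerate S U F → Integrable (ensemble S U F) → Good A' c (law (ensemble S U F)) := by
  intro Λ r k hΛ
  obtain ⟨A', H⟩ := Pool.Agent.U405.KE.pin_ens Λ (by linarith) r k
  obtain ⟨c, hc, H3⟩ := Pool.Agent.U405.KE.star_of_kmw A'
  refine ⟨A', 1 / (4 * c), by positivity, fun n S B U F hk hU hS hF hN hi => ?_⟩
  obtain ⟨k1, k2⟩ := H n U S B F hk hU (pin_of hS) ⟨hF.nonneg, hF.anti, hF.conc, hF.usc⟩ hN hi
  exact ⟨(Pool.Agent.N483.KM.wpm_iff k1.adm).2 k2, images_of k1.adm hc (H3 n _ k1 k2) rfl⟩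

end Pool.Agent.Results.MP_6d896a_gt.PinchedEnergies
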