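import Pool.Agent.H756.SB.Asm

/-!
# KLS for independent log-concave variables conditioned on signed order constraints

Q1 with absolute constants, for all sets, for the following log-concave measures, all `n`: the law of
independent random variables `X_1, …, X_n` with an arbitrary common EVEN log-concave density `ρ` on
the line, conditioned on an arbitrary set of inequalities of the forms `X_i ≤ X_j`, `X_i + X_j ≤ 0`,
`X_i + X_j ≥ 0`, `X_i ≥ 0`, `X_i ≤ 0`, of positive probability. In other words: conditioned on an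
arbitrary convex union of Weyl chambers of type `B_n`. No chamber structure is left in general: the
function `|X_i|` of the variables is not a function on the conditioned space with a product law, the
signs and the order of the variables are coupled. For the uniform density on `[-1/2, 1/2]` these are,
up to a translation, the uniform laws of all polytopes in the cube `[0, 1]ⁿ` given by inequalities
`x_i ≤ x_j`, `x_i + x_j ≤ 1`, `x_i + x_j ≥ 1`, `x_i ≤ 1/2`, `x_i ≥ 1/2`: in particular the fractional
stable set polytopes `{x ∈ [0, 1]ⁿ | x_i + x_j ≤ 1 for the edges}` of all graphs (for bipartite graphs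
these are order polytopes, for the other graphs they have half-integral vertices and are not).

The Poincare constant of the conditional law is at most `12 Var ρ`, the Cheeger constant at least
`1 / (28 √(Var ρ))`, and `Var ρ ≤ 768 ‖A‖_op`, `A` the covariance matrix of the conditional law.

Method. (1) Lattice. Signed labels `±1, …, ±n` are placed on `2N` positions so that `-a` sits at the
mirror image of the position of `a`; the constraints form a relation on the signed labels. Two
neighbouring positions are exchanged together with their mirror images, with symmetric rates `c_k`;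
the central exchange changes one sign. If `W` is increasing and antisymmetric with
`c_k (W_{k+1} - W_k) - c_{k-1} (W_k - W_{k-1}) = -W_k`, then every nonconstant eigenfunction has
eigenvalue at least one: path coupling for two admissible placements which differ by a reflection of
type `B` (exchange of two positions and of their mirror images), with the distance `W_j - W_i`. The new
point is that every exchange which would bring the two placements closer is admissible in both or
leaves the distance unchanged, whatever the constraints are. (2) Limit `N → ∞` with the rates of the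
logistic law; transport to `ρ` by an odd map, which is Lipschitz by Bobkov's inequality for the
median hazard (`U959.OC`). (3) Covariance: for `Q = ∑ x_i²`, `m_i = E x_i` and the linear function
`L = ∑ 2 m_i x_i`, `Var Q ≤ 2 Var L + 2 Var (Q - L)`, `|∇(Q - L)|² = 4 ∑ (x_i - m_i)²`, so by Poincare's
inequality a small covariance matrix gives a small variance of `Q`; but `Q` is invariant under signed
permutations and its variance is not changed by the conditioning. (4) From Poincare's to Cheeger's
inequality as in `OrderConditioned`.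

`OrderConditioned` (same problem, this team) is the case of unsigned constraints `X_i ≤ X_j`, there for
all log-concave `ρ`. The lemmas of this project were proved by helpers 756 (coupling), 928, 312, 399
(lattice), 741, 354, 411 (limit), 891, 574, 394 (transport, approximation, assembly), 260
(symmetrisation), 55 and 329 (covariance), along the lines of the modules `R972.OP` and `U959.OC`.
-/

set_option autoImplicit false

namespace Pool.Agent.Results.MP_6d896a_gt.SignedOrderConditioned

open MeasureTheory Set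
open scoped ENNReal InnerProductSpace

/-- Euclidean space of dimension `n` -/
abbrev Euc (n : ℕ) : Type := EuclideanSpace ℝ (Fin n)

/-- `ρ` is an even log-concave probability density on the line. -/
structure EvenLogConcaveDensity (ρ : ℝ → ℝ) : Prop where
  nonneg : ∀ t, 0 ≤ ρ t
  meas : Measurable ρ
  logc : ∀ x y t : ℝ, 0 < t → t < 1 → ρ x ^ (1 - t) * ρ y ^ t ≤ ρ ((1 - t) * x + t * y)
  mass : ∫⁻ t, ENNReal.ofReal (ρ t) = 1
  even : ∀ t, ρ (-t) = ρ t

/-- the variance of a random variable with density `ρ` -/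
noncomputable def variance₁ (ρ : ℝ → ℝ) : ℝ :=
  ProbabilityTheory.variance (fun t : ℝ => t) (volume.withDensity fun t => ENNReal.ofReal (ρ t))

/-- the law of `n` independent random variables with density `ρ` -/
noncomputable def iid (n : ℕ) (ρ : ℝ → ℝ) : Measure (Euc n) :=
  volume.withDensity fun x => ∏ i, ENNReal.ofReal (ρ (x i))

/-- the signed coordinate `x_i` (`u = (i, false)`) or `-x_i` (`u = (i, true)`) -/
def signed {n : ℕ} (x : Euc n) (u : Fin n × Bool) : ℝ := if u.2 then -x u.1 else x u.1

/-- the cone of the `x` with `signed x u ≤ signed x v` if `S u v` -/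
def signedCone {n : ℕ} (S : Fin n × Bool → Fin n × Bool → Prop) : Set (Euc n) :=
  {x | ∀ u v, S u v → signed x u ≤ signed x v}

/-- the law of `n` independent random variables with density `ρ` conditioned on `signedCone S` -/
noncomputable def conditioned {n : ℕ} (ρ : ℝ → ℝ) (S : Fin n × Bool → Fin n × Bool → Prop) :
    Measure (Euc n) := ProbabilityTheory.cond (iid n ρ) (signedCone S)

/-- `μ` has a log-concave density. -/
def LogConcave {n : ℕ} (μ : Measure (Euc n)) : Prop :=
  ∃ w : Euc n → ℝ, Measurable w ∧ (∀ x, 0 ≤ w x) ∧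
    (∀ x y, ∀ t : ℝ, 0 < t → t < 1 → w x ^ (1 - t) * w y ^ t ≤ w ((1 - t) • x + t • y)) ∧
    μ = volume.withDensity fun x => ENNReal.ofReal (w x)

/-- `Var ⟪θ, X⟫ ≤ s ‖θ‖²` for all `θ`: the covariance matrix of `μ` has norm at most `s`. -/
def CovLe {n : ℕ} (μ : Measure (Euc n)) (s : ℝ) : Prop :=
  ∀ θ : Euc n, ProbabilityTheory.evariance (fun x => ⟪θ, x⟫_ℝ) μ ≤ ENNReal.ofReal (s * ‖θ‖ ^ 2)

/-- Poincare's inequality with constant `C`, for all `C¹` functions in `L²(μ)` -/
def Poincare {n : ℕ} (μ : Measure (Euc n)) (C : ℝ) : Prop :=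
  ∀ f : Euc n → ℝ, ContDiff ℝ 1 f → MemLp f 2 μ →
    ENNReal.ofReal (ProbabilityTheory.variance f μ) ≤
      ENNReal.ofReal C * ∫⁻ x, ENNReal.ofReal (‖fderiv ℝ f x‖ ^ 2) ∂μ

/-- Minkowski (exterior) boundary measure `μ⁺(A)` -/
noncomputable def bdry {n : ℕ} (μ : Measure (Euc n)) (A : Set (Euc n)) : ℝ≥0∞ :=
  Filter.liminf (fun ε : ℝ => (μ (Metric.thickening ε A) - μ A) / ENNReal.ofReal ε)
    (nhdsWithin 0 (Set.Ioi 0))

/-- `c min(μ A, 1 - μ A) ≤ μ⁺(A)` for all measurable `A`, that is `c ≤ ψ_μ` -/
def Cheeger {n : ℕ} (μ : Measure (Euc n)) (c : ℝ) : Prop :=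
  ∀ A : Set (Euc n), MeasurableSet A → ENNReal.ofReal c * min (μ A) (1 - μ A) ≤ bdry μ A

/-- log-concavity of the density on the cone -/
theorem wS_logc {n : ℕ} {ρ : ℝ → ℝ} (h : EvenLogConcaveDensity ρ)
    (S : Fin n × Bool → Fin n × Bool → Prop) (x y : Euc n) (t : ℝ) (h0 : 0 < t) (h1 : t < 1) :
    Pool.Agent.H756.SB.wS ρ S x ^ (1 - t) * Pool.Agent.H756.SB.wS ρ S y ^ t ≤
      Pool.Agent.H756.SB.wS ρ S ((1 - t) • x + t • y) := by
  have hn : 0 ≤ Pool.Agent.H756.SB.wS ρ S ((1 - t) • x + t • y) := by
    unfold Pool.Agent.H756.SB.wS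
    split_ifs
    · exact Finset.prod_nonneg fun i _ => h.nonneg _
    · exact le_rfl
  by_cases hx : x ∈ Pool.Agent.H756.SB.conE S
  · by_cases hy : y ∈ Pool.Agent.H756.SB.conE S
    · have hxy : (1 - t) • x + t • y ∈ Pool.Agent.H756.SB.conE S := by
        intro u v huv
        have e1 := hx u v huv
        have e2 := hy u v huv
        have e3 : ∀ u : Fin n × Bool, Pool.Agent.H756.SB.sg (fun i => ((1 - t) • x + t • y) i) u =
            (1 - t) * Pool.Agent.H756.SB.sg (fun i => x i) u +
              t * Pool.Agent.H756.SB.sg (fun i => y i) u := by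
          intro u
          unfold Pool.Agent.H756.SB.sg
          simp only [PiLp.add_apply, PiLp.smul_apply, smul_eq_mul]
          split_ifs <;> ring
        rw [e3, e3]
        have e4 := mul_le_mul_of_nonneg_left e1 (by linarith : (0 : ℝ) ≤ 1 - t)
        have e5 := mul_le_mul_of_nonneg_left e2 h0.le
        linarith
      unfold Pool.Agent.H756.SB.wS
      rw [if_pos hx, if_pos hy, if_pos hxy, ← Real.finsetProd_rpow _ _ fun i _ => h.nonneg _,
        ← Real.finsetProd_rpow _ _ fun i _ => h.nonneg _, ← Finset.prod_mul_distrib]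
      refine Finset.prod_le_prod (fun i _ => mul_nonneg (Real.rpow_nonneg (h.nonneg _) _)
        (Real.rpow_nonneg (h.nonneg _) _)) fun i _ => ?_
      exact h.logc (x i) (y i) t h0 h1
    · have : Pool.Agent.H756.SB.wS ρ S y = 0 := if_neg hy
      rw [this, Real.zero_rpow h0.ne', mul_zero]
      exact hn
  · have : Pool.Agent.H756.SB.wS ρ S x = 0 := if_neg hx
    rw [this, Real.zero_rpow (by linarith : (1 - t) ≠ 0), zero_mul]
    exact hn

/-- **KLS for independent log-concave variables conditioned on signed order constraints.** Let `ρ` be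
an even log-concave probability density on the line, `n ≥ 1`, `S` an arbitrary relation on the signed
coordinates, and let `μ` be the law of `n` independent random variables with density `ρ` conditioned
on the cone `signedCone S`, which is assumed to have positive probability. Then `μ` is a log-concave
probability measure, Poincare's inequality holds with constant `12 Var ρ` and Cheeger's inequality
with constant `1 / (28 √(Var ρ))`. If the covariance matrix of `μ` has norm at most `s` then
`Var ρ ≤ 768 s`, and these inequalities hold with `9216 s` and `1 / (768 √s)`. -/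
theorem result : ∀ (n : ℕ) (ρ : ℝ → ℝ) (S : Fin n × Bool → Fin n × Bool → Prop), 1 ≤ n →
    EvenLogConcaveDensity ρ → iid n ρ (signedCone S) ≠ 0 →
    IsProbabilityMeasure (conditioned ρ S) ∧ LogConcave (conditioned ρ S) ∧
    Poincare (conditioned ρ S) (12 * variance₁ ρ) ∧
    Cheeger (conditioned ρ S) (1 / (28 * Real.sqrt (variance₁ ρ))) ∧
    ∀ s : ℝ, 0 < s → CovLe (conditioned ρ S) s → variance₁ ρ ≤ 768 * s ∧
      Poincare (conditioned ρ S) (9216 * s) ∧
      Cheeger (conditioned ρ S) (1 / (768 * Real.sqrt s)) := by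
  intro n ρ S hn hρ' hpos
  have hρ : Pool.Agent.U959.OC.LCD ρ := ⟨hρ'.nonneg, hρ'.meas, hρ'.logc, hρ'.mass⟩
  have hcone : signedCone S = Pool.Agent.H756.SB.conE S := rfl
  have hpos' : Pool.Agent.U959.OC.iid n ρ (Pool.Agent.H756.SB.conE S) ≠ 0 := hpos
  obtain ⟨hp0, hmax, hprob, hPoi, hmink⟩ :=
    Pool.Agent.H756.SB.facts n ρ S hρ hρ'.even hpos'
  obtain ⟨-, -, hv2, hvl, -, -⟩ := Pool.Agent.H756.SB.one ρ hρ hρ'.even hp0 hmax
  have hcov := Pool.Agent.H756.SB.cov n ρ S hn hρ hρ'.even hpos'
  have hnu : Pool.Agent.H756.SB.nus ρ S = conditioned ρ S := rfl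
  rw [hnu] at hprob hPoi hmink hcov
  have hv1 : ProbabilityTheory.variance (fun t : ℝ => t) (Pool.Agent.U959.OC.law ρ) = variance₁ ρ := rfl
  rw [hv1] at hv2 hcov
  rw [← hv2] at hvl
  obtain ⟨V, hV⟩ : ∃ V, V = variance₁ ρ := ⟨_, rfl⟩
  rw [← hV] at hvl hcov ⊢
  have hV0 : 0 < V := lt_of_lt_of_le (by positivity) hvl
  -- `1 / ρ(0)² ≤ 12 V`
  have hPV : 1 / ρ 0 ^ 2 ≤ 12 * V := by
    have : 1 / ρ 0 ^ 2 = 12 * (1 / (12 * ρ 0 ^ 2)) := by
      field_simp
    rw [this]
    linarith
  have hP : ∀ s, V ≤ s → Poincare (conditioned ρ S) (12 * s) := by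
    intro s hs f hf hf2
    have hs0 : 0 < s := lt_of_lt_of_le hV0 hs
    refine Pool.Agent.U959.OC.gen (conditioned ρ S) (by positivity) (fun v B L hv hB hL => ?_) f hf hf2
    refine (hPoi v B L hv hB hL).trans ?_
    refine mul_le_mul_of_nonneg_right ?_ (integral_nonneg fun x => sq_nonneg _)
    linarith
  have hC : ∀ b : ℝ, 0 < b → 8 / ρ 0 ≤ b → Cheeger (conditioned ρ S) (1 / b) := by
    intro b0 hb0 h4 A hA
    obtain ⟨b, hb⟩ : ∃ b, b = bdry (conditioned ρ S) A := ⟨_, rfl⟩
    have h1 : conditioned ρ S A * (1 - conditioned ρ S A) ≤ ENNReal.ofReal (4 / ρ 0) * b := by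
      rw [hb]
      exact hmink A
    rw [← hb]
    -- `min (a) (1 - a) ≤ 2 a (1 - a)`
    obtain ⟨a, ha⟩ : ∃ a, a = conditioned ρ S A := ⟨_, rfl⟩
    have ha1 : a ≤ 1 := by rw [ha]; exact prob_le_one
    have e2 : (2 : ℝ≥0∞) = ENNReal.ofReal 2 := by simp
    have hmin : min a (1 - a) ≤ 2 * (a * (1 - a)) := by
      have hat : a ≠ ⊤ := ne_top_of_le_ne_top ENNReal.one_ne_top ha1
      obtain ⟨r, hr0, hr⟩ : ∃ r : ℝ, 0 ≤ r ∧ a = ENNReal.ofReal r :=
        ⟨a.toReal, ENNReal.toReal_nonneg, (ENNReal.ofReal_toReal hat).symm⟩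
      have hr1 : r ≤ 1 := by
        rw [hr, ← ENNReal.ofReal_one] at ha1
        exact (ENNReal.ofReal_le_ofReal_iff zero_le_one).1 ha1
      have e1 : 1 - a = ENNReal.ofReal (1 - r) := by
        rw [hr, ← ENNReal.ofReal_one, ENNReal.ofReal_sub _ hr0]
      rw [e1, hr, ← ENNReal.ofReal_mul hr0, e2, ← ENNReal.ofReal_mul (by norm_num)]
      rcases le_total r (1 / 2) with h | h
      · refine (min_le_left _ _).trans (ENNReal.ofReal_le_ofReal ?_)
        nlinarith
      · refine (min_le_right _ _).trans (ENNReal.ofReal_le_ofReal ?_)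
        nlinarith
    rw [← ha] at h1 ⊢
    have h7 : min a (1 - a) ≤ ENNReal.ofReal b0 * b := by
      calc min a (1 - a) ≤ 2 * (a * (1 - a)) := hmin
        _ ≤ 2 * (ENNReal.ofReal (4 / ρ 0) * b) := mul_le_mul_right h1 _
        _ = ENNReal.ofReal (8 / ρ 0) * b := by
            rw [← mul_assoc, e2, ← ENNReal.ofReal_mul (by norm_num)]
            congr 2
            ring
        _ ≤ ENNReal.ofReal b0 * b := mul_le_mul_left (ENNReal.ofReal_le_ofReal h4) _
    calc ENNReal.ofReal (1 / b0) * min a (1 - a)
        ≤ ENNReal.ofReal (1 / b0) * (ENNReal.ofReal b0 * b) := mul_le_mul_right h7 _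
      _ = b := by
          rw [← mul_assoc, ← ENNReal.ofReal_mul (by positivity), one_div,
            inv_mul_cancel₀ hb0.ne', ENNReal.ofReal_one, one_mul]
  -- `(8 / ρ(0))² ≤ 768 V`
  have hsq : (8 / ρ 0) ^ 2 ≤ 768 * V := by
    have : (8 / ρ 0) ^ 2 = 64 * (1 / ρ 0 ^ 2) := by
      rw [div_pow]
      ring
    rw [this]
    linarith
  have h80 : 0 ≤ 8 / ρ 0 := by positivity
  have hCV : 8 / ρ 0 ≤ 28 * Real.sqrt V := by
    refine (abs_le_of_sq_le_sq' ?_ (by positivity)).2
    rw [mul_pow, Real.sq_sqrt hV0.le]
    linarith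
  refine ⟨hprob, ?_, hP V le_rfl, hC _ (by have := Real.sqrt_pos.2 hV0; positivity) hCV,
    fun s hs hc => ?_⟩
  · refine ⟨fun x => (iid n ρ (signedCone S)).toReal⁻¹ * Pool.Agent.H756.SB.wS ρ S x, ?_, ?_, ?_, ?_⟩
    · exact measurable_const.mul (Pool.Agent.H756.SB.wS_meas' hρ.meas S)
    · intro x
      refine mul_nonneg (inv_nonneg.2 ENNReal.toReal_nonneg) ?_
      unfold Pool.Agent.H756.SB.wS
      split_ifs
      · exact Finset.prod_nonneg fun i _ => hρ.nonneg _
      · exact le_rfl
    · intro x y t h0 h1
      have hw0 : ∀ x : Euc n, 0 ≤ Pool.Agent.H756.SB.wS ρ S x := by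
        intro x
        unfold Pool.Agent.H756.SB.wS
        split_ifs
        · exact Finset.prod_nonneg fun i _ => hρ.nonneg _
        · exact le_rfl
      obtain ⟨z, hz⟩ : ∃ z, z = (iid n ρ (signedCone S)).toReal⁻¹ := ⟨_, rfl⟩
      have hz0 : 0 ≤ z := by rw [hz]; exact inv_nonneg.2 ENNReal.toReal_nonneg
      rw [← hz, Real.mul_rpow hz0 (hw0 x), Real.mul_rpow hz0 (hw0 y)]
      have e : z ^ (1 - t) * z ^ t = z := by
        rw [← Real.rpow_add_of_nonneg hz0 (by linarith) h0.le]
        simp
      calc z ^ (1 - t) * Pool.Agent.H756.SB.wS ρ S x ^ (1 - t) *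
            (z ^ t * Pool.Agent.H756.SB.wS ρ S y ^ t) =
            (z ^ (1 - t) * z ^ t) * (Pool.Agent.H756.SB.wS ρ S x ^ (1 - t) *
              Pool.Agent.H756.SB.wS ρ S y ^ t) := by ring
        _ ≤ z * Pool.Agent.H756.SB.wS ρ S ((1 - t) • x + t • y) := by
            rw [e]
            exact mul_le_mul_of_nonneg_left (wS_logc hρ' S x y t h0 h1) hz0
    · exact Pool.Agent.H756.SB.nus_dens hρ S hpos'
  · have hVs : V ≤ 768 * s := hcov s hs hc
    have hs0 : 0 < Real.sqrt s := Real.sqrt_pos.2 hs
    refine ⟨hVs, ?_, hC _ (by positivity) ?_⟩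
    · have := hP (768 * s) hVs
      have e : 12 * (768 * s) = 9216 * s := by ring
      rwa [e] at this
    · refine (abs_le_of_sq_le_sq' ?_ (by positivity)).2
      rw [mul_pow, Real.sq_sqrt hs.le]
      have : (768 : ℝ) ^ 2 = 768 * 768 := by norm_num
      rw [this]
      nlinarith

end Pool.Agent.Results.MP_6d896a_gt.SignedOrderConditioned
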